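import Pool.Agent.W743.HP.Stm

set_option autoImplicit false

open Set Filter Topology

namespace Pool.Agent.W585.HP

open Pool.Agent.W743.HP

/-- `f` is close to the dilation by `t` -/
theorem near {f : ℂ → ℂ} {t : ℝ} (hd : DifferentiableOn ℂ f (Metric.ball 0 1))
    (h : ∀ z ∈ Metric.ball (0 : ℂ) 1, ‖deriv f z - t‖ ≤ t / 10) {z w : ℂ}
    (hz : z ∈ Metric.ball (0 : ℂ) 1) (hw : w ∈ Metric.ball (0 : ℂ) 1) :
    ‖(f z - f w) - t * (z - w)‖ ≤ t / 10 * ‖z - w‖ := by
  have hat : ∀ x ∈ Metric.ball (0 : ℂ) 1, DifferentiableAt ℂ f x := fun x hx =>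
    (hd x hx).differentiableAt (Metric.isOpen_ball.mem_nhds hx)
  have h1 := Convex.norm_image_sub_le_of_norm_hasDerivWithin_le (𝕜 := ℂ)
    (f := fun x => f x - t * x) (f' := fun x => deriv f x - t) (C := t / 10)
    (s := Metric.ball (0 : ℂ) 1) (x := w) (y := z)
    (fun x hx => by
      have h2 : HasDerivAt (fun x : ℂ => f x - t * x) (deriv f x - t * 1) x :=
        (hat x hx).hasDerivAt.sub ((hasDerivAt_id x).const_mul (t : ℂ))
      rw [mul_one] at h2
      exact h2.hasDerivWithinAt) h (convex_ball _ _) hw hz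
  have e : f z - t * z - (f w - t * w) = (f z - f w) - t * (z - w) := by ring
  rw [e] at h1
  exact h1

theorem inj : S_INJ := by
  rintro f ⟨hd, h0, t, ht1, ht2, h⟩
  have ht0 : 0 < t := by linarith
  have hnt : ∀ x : ℂ, ‖(t : ℂ) * x‖ = t * ‖x‖ := fun x => by
    rw [norm_mul, Complex.norm_real, Real.norm_eq_abs, abs_of_pos ht0]
  constructor
  · intro z hz w hw hzw
    have h1 := near hd h hz hw
    rw [hzw, sub_self, zero_sub, norm_neg, hnt] at h1
    have h2 : ‖z - w‖ = 0 := by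
      have := norm_nonneg (z - w)
      nlinarith
    exact sub_eq_zero.1 (norm_eq_zero.1 h2)
  · intro z hz
    have h1 := near hd h hz (Metric.mem_ball_self one_pos)
    rw [h0, sub_zero, sub_zero] at h1
    have h2 : ‖z‖ < 1 := by simpa using hz
    have h3 : ‖f z‖ ≤ ‖f z - t * z‖ + ‖(t : ℂ) * z‖ := by
      have := norm_add_le (f z - t * z) ((t : ℂ) * z)
      rwa [sub_add_cancel] at this
    rw [hnt] at h3
    have h4 := norm_nonneg z
    nlinarith

end Pool.Agent.W585.HP

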