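import Pool.Agent.W743.HP.Stm

set_option autoImplicit false

open Set Filter Topology

namespace Pool.Agent.W585.HP

open Pool.Agent.W743.HP

/-- the coordinates -/
noncomputable def ev {ι : Type} (i : ι) : L1 ι →L[ℝ] ℝ := lp.evalCLM ℝ (fun _ : ι => ℝ) 1 i

theorem ev_apply {ι : Type} (i : ι) (a : L1 ι) : ev i a = a i := rfl

theorem ue_apply {ι : Type} [DecidableEq ι] (i j : ι) : (ue i : L1 ι) j = if j = i then 1 else 0 := by
  unfold ue
  split
  · next h =>
    subst h
    simp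
  · next h => exact lp.single_apply_ne 1 i 1 h

theorem PP_apply (q : Q) (n : ℕ) : PP q n = if n < 2 then 0 else q n := by
  have h := (lift_hasSum (fun n : ℕ => if n < 2 then 0 else (ue n : Q)) 1 norm_PP_aux q).mapL
    (ev n)
  have h1 : ∀ i : ℕ, ev n (q i • (if i < 2 then 0 else (ue i : Q))) =
      if i = n then (if n < 2 then 0 else q n) else 0 := by
    intro i
    rw [map_smul, ev_apply]
    by_cases hi : i = n
    · subst hi
      by_cases h2 : i < 2
      · simp [h2]
      · simp [h2, ue_apply]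
    · by_cases h2 : i < 2
      · simp [h2, hi]
      · simp [h2, hi, ue_apply, Ne.symm hi]
  simp only [h1] at h
  exact h.unique (hasSum_ite_eq n _)

theorem dph_apply (η : ℝ) (q : Q) (n : ℕ) :
    dph η q n = if n = 0 then 0 else if n = 1 then η else q n := by
  unfold dph
  rw [lp.coeFn_add, Pi.add_apply, lp.coeFn_smul, Pi.smul_apply, PP_apply, ue_apply, smul_eq_mul]
  rcases n with _ | _ | n
  · simp
  · simp
  · simp

/-- the sums of the coefficients -/
theorem sums (hR : S_REG) {α y : ℝ} (hα : 0 < α) (hy : 0 < y) (hy1 : y < 1)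
    (hg0 : 0 < G 0 α (y / 2)) (hg1 : G1 0 α (y / 2) = 0) (N : ℕ) (p : ℝ) (U : ℕ → ℝ)
    (hU : ∀ j, U j = U 0 * (c N α j * y ^ j) + 2 * p / (N + 1) * (j * uh α y j)) {A : ℝ}
    (hA : HasSum (fun j : ℕ => (1 / 2) ^ j * U j) A)
    (hB : HasSum (fun j : ℕ => (j + 1) * (1 / 2) ^ j * U (j + 1)) 0) :
    U 0 * G N α (y / 2) = A ∧
      U 0 * G1 N α (y / 2) + p * y * G2 0 α (y / 2) / ((N + 1) * G 0 α (y / 2)) = 0 := by
  have hx : |y / 2| < 1 := by
    rw [abs_of_pos (by positivity)]
    linarith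
  obtain ⟨x, hxd⟩ : ∃ x, x = y / 2 := ⟨_, rfl⟩
  rw [← hxd] at hx hg0 hg1 ⊢
  obtain ⟨s1, s2, s3, s4, -, -, -⟩ := hR.1 N α x hα.le hx
  obtain ⟨t1, t2, t3, t4, -, -, -⟩ := hR.1 0 α x hα.le hx
  have a1 : HasSum (fun j : ℕ => c N α j * x ^ j) (G N α x) := s1.of_abs.hasSum
  have a2 : HasSum (fun j : ℕ => (j + 1) * c N α (j + 1) * x ^ j) (G1 N α x) := s2.of_abs.hasSum
  have b2 : HasSum (fun j : ℕ => (j + 1) * c 0 α (j + 1) * x ^ j) (G1 0 α x) := t2.of_abs.hasSum
  have b3 : HasSum (fun j : ℕ => (j + 2) * (j + 1) * c 0 α (j + 2) * x ^ j) (G2 0 α x) :=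
    t3.of_abs.hasSum
  -- `∑ j c_j x^j = x G1`
  have b5 : HasSum (fun j : ℕ => (j : ℝ) * c 0 α j * x ^ j) (x * G1 0 α x) := by
    have := (hasSum_nat_add_iff (f := fun j : ℕ => (j : ℝ) * c 0 α j * x ^ j)
      (g := x * G1 0 α x) 1).1 ?_
    · simpa using this
    · refine (b2.mul_left x).congr_fun ?_ |> id
      intro j
      push_cast
      rw [pow_succ]
      ring
  -- `∑ (j+1)² c_{j+1} x^j = G1 + x G2`
  have b6 : HasSum (fun j : ℕ => ((j : ℝ) + 1) ^ 2 * c 0 α (j + 1) * x ^ j)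
      (G1 0 α x + x * G2 0 α x) := by
    have c1 : HasSum (fun j : ℕ => (j : ℝ) * ((j + 1) * c 0 α (j + 1)) * x ^ j)
        (x * G2 0 α x) := by
      have := (hasSum_nat_add_iff (f := fun j : ℕ => (j : ℝ) * ((j + 1) * c 0 α (j + 1)) * x ^ j)
        (g := x * G2 0 α x) 1).1 ?_
      · simpa using this
      · refine (b3.mul_left x).congr_fun ?_ |> id
        intro j
        push_cast
        rw [pow_succ]
        ring
    refine (b2.add c1).congr_fun ?_ |> id
    intro j
    ring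
  have hyx : y = 2 * x := by rw [hxd]; ring
  have hpow : ∀ j : ℕ, (1 / 2 : ℝ) ^ j * y ^ j = x ^ j := by
    intro j
    rw [← mul_pow, hxd]
    congr 1
    ring
  constructor
  · have e1 : HasSum (fun j : ℕ => (1 / 2) ^ j * U j)
        (U 0 * G N α x + 2 * p / (N + 1) / G 0 α x * (x * G1 0 α x)) := by
      refine ((a1.mul_left (U 0)).add (b5.mul_left (2 * p / (N + 1) / G 0 α x))).congr_fun ?_ |> id
      intro j
      rw [hU j]
      unfold uh
      rw [← hxd, ← hpow j]
      ring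
    have e2 := hA.unique e1
    rw [hg1, mul_zero, mul_zero, add_zero] at e2
    exact e2.symm
  · have e1 : HasSum (fun j : ℕ => (j + 1) * (1 / 2) ^ j * U (j + 1))
        (U 0 * y * G1 N α x + 2 * p / (N + 1) / G 0 α x * y * (G1 0 α x + x * G2 0 α x)) := by
      refine ((a2.mul_left (U 0 * y)).add
        (b6.mul_left (2 * p / (N + 1) / G 0 α x * y))).congr_fun ?_ |> id
      intro j
      rw [hU (j + 1)]
      unfold uh
      rw [← hxd, ← hpow j]
      push_cast
      ring
    have e2 := hB.unique e1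
    rw [hg1, zero_add] at e2
    have e3 : U 0 * y * G1 N α x + 2 * p / (N + 1) / G 0 α x * y * (x * G2 0 α x) =
        y * (U 0 * G1 N α x + p * y * G2 0 α x / ((N + 1) * G 0 α x)) := by
      have hN : (N : ℝ) + 1 ≠ 0 := by positivity
      have hG := hg0.ne'
      rw [hyx]
      field_simp
    rw [e3] at e2
    rcases mul_eq_zero.1 e2.symm with h | h
    · exact absurd h hy.ne'
    · exact h

theorem solv : S_REG → S_COEF → S_TC → S_MODE → S_SOLV := by
  intro hR hC hT hM α y m hG η v hDF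
  have hNN : NN v.2 = 0 := congrArg Prod.fst hDF
  have hD2 : ∀ n j, (DF α 0 (y • ue 0, m) η v).2 (n, j) = 0 := by
    intro n j
    rw [hDF]
    rfl
  have hco := (hC α y m hG.α_pos.le hG.y_pos hG.y_lt hG.g0.ne' hG.isM0 η v).2
  obtain ⟨U, hU⟩ : ∃ U : ℕ → ℕ → ℝ, ∀ n j, U n j =
    TT v.2 (n, j) + if (n, j) = (1, 0) then v.1 1 else 0 := ⟨_, fun _ _ => rfl⟩
  obtain ⟨p, hp⟩ : ∃ p : ℕ → ℝ, ∀ n, p n = if n = 0 then v.1 0 / (2 * y) else dph η v.1 n :=
    ⟨_, fun _ => rfl⟩
  have hy := hG.y_pos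
  have hUS : ∀ n j, U n (j + 1) = TT v.2 (n, j + 1) := by
    intro n j
    rw [hU]
    simp
  -- the equation for the coefficients
  have h1 : ∀ n j, v.2 (n, j) = -((((4 * n : ℕ) : ℝ) + j + 1) * (j + 1) * U n (j + 1)) := by
    intro n j
    rw [hUS, (hT v.2 n).1 j]
    push_cast
    field_simp
  have h2 : ∀ n j, v.2 (n, j) - 2 * y * sh (fun i => v.2 (n, i)) j +
      y ^ 2 * sh (sh (fun i => v.2 (n, i))) j - α * y * U n j =
      p n * (4 * y / (((4 * n : ℕ) : ℝ) + 1) * sh (mh α y) j -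
        4 * y ^ 2 / (((4 * n : ℕ) : ℝ) + 1) * sh (sh (mh α y)) j + 2 * α * y * uh α y j) := by
    intro n j
    have e1 := hD2 n j
    rw [hco n j] at e1
    rw [hU, hp]
    push_cast
    by_cases hn : n = 0
    · subst hn
      rw [dph_apply] at e1
      simp only [if_true] at e1 ⊢
      have e2 : v.1 0 / (2 * y) * (4 * y / (4 * ((0 : ℕ) : ℝ) + 1) * sh (mh α y) j -
          4 * y ^ 2 / (4 * ((0 : ℕ) : ℝ) + 1) * sh (sh (mh α y)) j + 2 * α * y * uh α y j) =
          v.1 0 * (2 * sh (mh α y) j - 2 * y * sh (sh (mh α y)) j + α * uh α y j) := by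
        push_cast
        field_simp
        ring
      rw [e2]
      linarith
    · simp only [hn, if_false] at e1 ⊢
      linarith
  have h3 : ∀ n j, U n j = U n 0 * (c (4 * n) α j * y ^ j) +
      2 * p n / (((4 * n : ℕ) : ℝ) + 1) * (j * uh α y j) := fun n j =>
    hM (4 * n) α y (p n) (U n) (fun j => v.2 (n, j)) hG.y_pos hG.y_lt (h1 n) (h2 n) j
  have h4 : ∀ n, U n 0 * G (4 * n) α (y / 2) = (if n = 1 then v.1 1 else 0) ∧
      U n 0 * G1 (4 * n) α (y / 2) + p n * y * G2 0 α (y / 2) /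
        ((((4 * n : ℕ) : ℝ) + 1) * G 0 α (y / 2)) = 0 := by
    intro n
    refine sums hR hG.α_pos hG.y_pos hG.y_lt hG.g0 hG.g1 (4 * n) (p n) (U n) (h3 n) ?_ ?_
    · have e1 := (hT v.2 n).2.2.1
      have e2 : HasSum (fun j : ℕ => if j = 0 then (if n = 1 then v.1 1 else 0) else 0)
          (if n = 1 then v.1 1 else 0) := hasSum_ite_eq 0 _
      have e3 := e1.add e2
      rw [zero_add] at e3
      refine e3.congr_fun ?_ |> id
      intro j
      rw [hU]
      by_cases hj : j = 0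
      · subst hj
        by_cases hn : n = 1
        · subst hn; simp
        · simp [hn]
      · simp [hj]
    · have e1 := (hT v.2 n).2.2.2
      rw [hNN] at e1
      have e2 := e1.neg
      have e3 : -((0 : Q) n / (4 * (n : ℝ) + 1)) = 0 := by simp
      rw [e3] at e2
      refine e2.congr_fun ?_ |> id
      intro j
      rw [hUS]
      ring
  have hg2 := hG.g2
  have hg0 := hG.g0
  -- vanishing
  have h5 : ∀ n, U n 0 = 0 → p n = 0 → ∀ j, v.2 (n, j) = 0 := by
    intro n hn0 hpn j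
    rw [h1 n j, h3 n (j + 1), hn0, hpn]
    simp
  have h6 : ∀ n, U n 0 = 0 → p n = 0 := by
    intro n hn0
    have e1 := (h4 n).2
    rw [hn0, zero_mul, zero_add, div_eq_zero_iff] at e1
    have hne : (((4 * n : ℕ) : ℝ) + 1) * G 0 α (y / 2) ≠ 0 := by positivity
    rcases e1 with e1 | e1
    · rcases mul_eq_zero.1 e1 with e1 | e1
      · rcases mul_eq_zero.1 e1 with e1 | e1
        · exact e1
        · exact absurd e1 hy.ne'
      · exact absurd e1 hg2.ne
    · exact absurd e1 hne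
  have h00 : U 0 0 = 0 := by
    have e1 := (h4 0).1
    simp only [zero_ne_one, if_false, mul_zero] at e1
    rcases mul_eq_zero.1 e1 with e1 | e1
    · exact e1
    · exact absurd e1 hg0.ne'
  refine ⟨?_, ?_, h5 0 h00 (h6 0 h00), ?_, ?_⟩
  · have e1 := h6 0 h00
    rw [hp] at e1
    simp only [if_true] at e1
    rcases div_eq_zero_iff.1 e1 with e1 | e1
    · exact e1
    · exact absurd e1 (by positivity)
  · intro n hn
    have hn0 : U n 0 = 0 := by
      have e1 := (h4 n).1
      have hn1 : n ≠ 1 := by omega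
      simp only [hn1, if_false] at e1
      rcases mul_eq_zero.1 e1 with e1 | e1
      · exact e1
      · exact absurd e1 (hG.gn n hn).ne'
    refine ⟨?_, h5 n hn0 (h6 n hn0)⟩
    have e1 := h6 n hn0
    rw [hp, dph_apply] at e1
    have hn1 : n ≠ 1 := by omega
    have hn2 : n ≠ 0 := by omega
    simpa [hn1, hn2] using e1
  · have hp1 : p 1 = η := by rw [hp, dph_apply]; simp
    obtain ⟨e1, e2⟩ := h4 1
    rw [hp1] at e2
    simp only [if_true, mul_one] at e1 e2
    push_cast at e2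
    rw [← e1]
    have hg41 := hG.g41.ne
    have hg0' := hg0.ne'
    have e3 : U 1 0 = -(η * y * G2 0 α (y / 2) / ((4 + 1) * G 0 α (y / 2))) /
        G1 4 α (y / 2) := by
      rw [eq_div_iff hg41]
      linarith
    rw [e3]
    field_simp
    norm_num
    ring
  · intro hη
    have hp1 : p 1 = 0 := by rw [hp, dph_apply]; simp [hη]
    have h10 : U 1 0 = 0 := by
      obtain ⟨e1, e2⟩ := h4 1
      rw [hp1] at e2
      simp only [mul_one, zero_mul, zero_div, add_zero] at e2
      rcases mul_eq_zero.1 e2 with e2 | e2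
      · exact e2
      · exact absurd e2 hG.g41.ne
    exact h5 1 h10 hp1

end Pool.Agent.W585.HP

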